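import Pool.Agent.W309.TD.Ex
import Pool.Agent.W309.TD.Stmt

/-!
# The Selmer group conjecture at `ℓ = 2` for pullbacks of the Legendre curve

`E_g : y ^ 2 = x (x - 1) (x - g)` over `K = k(t)`, where `k` is an arbitrary field of characteristic
different from two. Under conditions on the polynomial `g` which hold for large explicit families
of every geometric genus, a class in `H ^ 1 (K, E_g)` which is killed by a power of two and is
trivial at all closed points of the affine line is zero: the 2-primary part of the Tate-Shafarevich
group is zero, and so is its 2-adic Tate module. Moreover `E_g(K) = 2 E_g(K) + E_g(K)[2]`.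

Cohomology is Galois cohomology: classes are represented by continuous 1-cocycles of
`Gal(K^sep / K)` with values in `E(K^sep)`; the definitions are in `Pool.Agent.W309.TD.Stmt`.
-/

set_option autoImplicit false
set_option linter.all false

open WeierstrassCurve IsDedekindDomain Polynomial
open scoped Classical

namespace Pool.Agent.Results.MP_1bdb59_nt.LegendrePullbackTwoDescent

/-- The elliptic curve `E_g : y ^ 2 = x (x - 1) (x - g) = x ^ 3 - (1 + g) x ^ 2 + g x`. -/
def E {K : Type} [Field K] (g : K) : WeierstrassCurve K := ⟨0, -(1 + g), 0, g, 0⟩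

/-- The curve `E_g` over `k(t)`, for a polynomial `g`. -/
noncomputable def EPoly {k : Type} [Field k] (g : k[X]) : WeierstrassCurve (RatFunc k) :=
  E (algebraMap k[X] (RatFunc k) g)

/-- With `K = k(t)` and `W = E_g`: `W(K) = 2 W(K) + W(K)[2]`; every class of 2-power order in
`H ^ 1 (K, W)` which is trivial over the completions at all maximal ideals of `k[t]` is zero; the
2-adic Tate module of the group of classes which are trivial at all maximal ideals is zero. -/
def TwoDescentComplete {k : Type} [Field k] (g : k[X]) : Prop :=
  W309.Sha.PointsComplete (EPoly g) ∧ W309.Sha.ShaTwoTrivial k[X] (EPoly g) ∧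
    W309.Sha.ShaTateTrivial k[X] (EPoly g)

/-- No element of `k` which is not a square becomes a square in `k[t] / (π)`. -/
def SquareStable {k : Type} [Field k] (π : k[X]) : Prop :=
  ∀ c : k, (∃ a : k[X], π ∣ C c - a ^ 2) → IsSquare c

/-- The hypothesis on `g`. -/
def Good {k : Type} [Field k] (g : k[X]) : Prop :=
  Irreducible (g - 1) ∧ SquareStable (g - 1) ∧
    ((Irreducible g ∧ SquareStable g) ∨
      (¬ IsSquare (-1 : k) ∧ (¬ ∃ (c : k) (s : k[X]), g = C c * s ^ 2) ∧
        ∀ π : k[X], Irreducible π → π ∣ g → SquareStable π))

/-- **Two-descent for pullbacks of the Legendre curve.** Let `k` be a field of characteristic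
different from two and `g` a polynomial over `k` such that `g - 1` is irreducible and square stable.
If `g` is irreducible and square stable, or if `-1` is not a square in `k`, `g` is not a constant
times a square and all irreducible factors of `g` are square stable, then the conclusion holds for
`E_g` over `k(t)`.

Irreducible polynomials of odd degree are square stable. In particular the conclusion holds for
`y ^ 2 = x (x - 1) (x - ∏ (t - a))` over `ℚ(t)`, where the product is over the elements `a` of any
finite set of integers with an odd number of elements, and, over every `k`, for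
`y ^ 2 = x (x - 1) (x - (t ^ (l ^ j) - c))`, where `l` is an odd prime number, `j ≥ 0`, and `c`,
`c + 1` are elements of `k` which are not `l`-th powers. -/
theorem result :
    (∀ (k : Type) [Field k], (2 : k) ≠ 0 → ∀ g : k[X], Good g → TwoDescentComplete g) ∧
    (∀ (k : Type) [Field k] (π : k[X]), Irreducible π → Odd π.natDegree → SquareStable π) ∧
    (∀ S : Finset ℤ, Odd S.card → TwoDescentComplete (∏ a ∈ S, (X - C (a : ℚ)))) ∧
    (∀ (k : Type) [Field k], (2 : k) ≠ 0 → ∀ (l : ℕ), l.Prime → l ≠ 2 → ∀ c : k,
      (∀ b : k, b ^ l ≠ c) → (∀ b : k, b ^ l ≠ c + 1) → ∀ j : ℕ,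
      TwoDescentComplete (X ^ l ^ j - C c)) := by
  refine ⟨?_, ?_, ?_, ?_⟩
  · rintro k _ h2 g ⟨hq, hqs, halt⟩
    exact W309.Sha.of_concl (EPoly g) (W309.TD.poly_main h2 (RatFunc k) g hq hqs halt)
  · intro k _ π hπ hodd
    exact W309.TD.sqStable_of_odd hπ hodd
  · intro S hS
    obtain ⟨h1, h2, h3⟩ := W309.TD.rat_hyp hS
    exact W309.Sha.of_concl (EPoly _)
      (W309.TD.poly_main two_ne_zero (RatFunc ℚ) _ h1 h2 (Or.inr h3))
  · intro k _ h2 l hl hl2 c hc hc1 j
    obtain ⟨h3, h4, h5, h6⟩ := W309.TD.kummer_hyp hl hl2 hc hc1 j
    exact W309.Sha.of_concl (EPoly _) (W309.TD.poly_main h2 (RatFunc k) _ h3 h4 (Or.inl ⟨h5, h6⟩))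

end Pool.Agent.Results.MP_1bdb59_nt.LegendrePullbackTwoDescent
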