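import Pool.Agent.W528.HF.Main
import Pool.Agent.W528.HC.MU
import Pool.Agent.W924.HC.PR
import Pool.Agent.W340.HD.IN
import Pool.Agent.W108.HD.ONE
import Pool.Agent.W940.HD.GE
import Pool.Agent.W551.HD.GN
import Pool.Agent.W349.HF.AN
import Pool.Agent.W933.HF.PN

set_option autoImplicit false

namespace Pool.Agent.Results.MP_1bdb59_nt.SuperellipticSelmer

open Polynomial Pool.Agent.W528.HC Pool.Agent.W528.HD Pool.Agent.W528.HF

/-- **The Selmer group conjecture for superelliptic Jacobians over finitely generated fields.**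

Let `k` be a finitely generated field of characteristic `0` (or of characteristic `1` modulo `n`),
containing the `n r`-th roots of unity, `r` prime to `n`; let `f_1, ..., f_m` be any polynomials of
degree at most `D` over `k`, not all of the differences constant, `a_i > 0`, and let
`2 D (a_1 + ... + a_m)` be smaller than every prime factor of `n`. Let `J` be the Jacobian of
`y ^ n = ∏ (x - f_i(u ^ r)) ^ a_i` over `K = k(u)`. For a prime `ℓ`, an algebraic closure `E` of
`ℚ_ℓ` and `V = H^1(P^1, j_* V_ℓ(J)^*) ⊗ E`, the roots of unity acting on `(u, y)` decompose `V`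
into spaces `W (j, s)`, `0 < j < n`, `0 ≤ s < r`, stable under the Galois group `G` of `k`.
Let `φ` be a Frobenius element at a place of a model of `k` with residue field `κ` of
characteristic `c = 1` modulo `n`, `c` prime to `r` and different from `ℓ`, where everything has
good reduction. By the Grothendieck-Lefschetz formula the traces of the powers of `φ` on `W (j, s)`
are the sums `polySum` (`PolyTrace`).

Theorem: (1) the trace of `φ ^ n` on `V` is the number of points of the affine surface
`y ^ n = ∏ (x - f_i(u ^ r)) ^ a_i` minus `|L| ^ 2`; (2) if `ε` is a character of `G` with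
`ε φ = |κ|` (the inverse of the cyclotomic character), then no nonzero vector of `V` is multiplied
by `ε` under a subgroup of finite index: `V(1)` has no invariants, so `Sel(J, ℤ_ℓ)` is finite and
`T_ℓ Sha(J) = 0`. -/
theorem result (n r c D : ℕ) (hn : 2 ≤ n) (hr : 0 < r) (hrn : r.Coprime n)
    [Fact c.Prime] (hcr : ¬ c ∣ r) (hnc : n ∣ c - 1)
    (κ : Type) [Field κ] [Fintype κ] [CharP κ c] (z : κ) (hz : IsPrimitiveRoot z (n * r))
    (E : Type) [Field E] [CharZero E] [IsAlgClosed E] (μ : E) (hμ : IsPrimitiveRoot μ (n * r))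
    (m : ℕ) (f : Fin m → κ[X]) (hD : 1 ≤ D) (hf : ∀ i, (f i).natDegree ≤ D)
    (a : Fin m → ℕ) (ha : ∀ i, 0 < a i)
    (ha2 : ∀ l : ℕ, l.Prime → l ∣ n → 2 * D * ∑ i, a i < l)
    (G : Type) [Group G] (V : Type) [AddCommGroup V] [Module E V] [FiniteDimensional E V]
    (ρ : Representation E G V) (W : Fin (n - 1) × Fin r → Submodule E V)
    (hW : DirectSum.IsInternal W) (hstab : ∀ χ g, ∀ v ∈ W χ, ρ g v ∈ W χ)
    (φ : G) (hφ : ∀ χ, PolyTrace κ n r f a z μ (χ.1 + 1) χ.2 ((ρ φ).restrict (hstab χ φ))) :
    (∀ (L : Type) [Field L] [Fintype L] [Algebra κ L],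
      LinearMap.trace E V ((ρ φ) ^ Module.finrank κ L)
        = (polyPoints L n r (fun i => (f i).map (algebraMap κ L)) a : E)
          - (Fintype.card L : E) ^ 2) ∧
    ∀ (ε : G →* E), ε φ = Fintype.card κ → ∀ (H : Subgroup G), H.FiniteIndex → ∀ v : V,
      (∀ g ∈ H, ρ g v = ε g • v) → v = 0 :=
  fin_rep Pool.Agent.W551.HD.GN.main
    (Pool.Agent.W108.HD.ONE.main Pool.Agent.W551.HD.GN.main Pool.Agent.W340.HD.IN.main
      Pool.Agent.W135.HB.SA.main)
    Pool.Agent.W940.HD.GE.main Pool.Agent.W349.HF.AN.main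
    (Pool.Agent.W933.HF.PN.main Pool.Agent.W924.HC.PR.main mu_main)
    hn hr hrn hcr hnc κ hz hμ hD f hf a ha ha2 ρ W hW hstab φ hφ

end Pool.Agent.Results.MP_1bdb59_nt.SuperellipticSelmer
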